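import Mathlib
import Pool.Agent.Helper82.PN.Goals

/-!
# Project PN, packet SHADV
-/

open MeasureTheory Set
open scoped ENNReal
open Pool.Agent.Helper47.AQ Pool.Agent.Helper82.PN

noncomputable section

namespace Pool.Agent.Helper78.PN

theorem real_part {V₀ V₁ V P₀ P₁ P ρ : ℝ} (hρ0 : 0 < ρ) (hρ1 : ρ < 1) (hV₀ : 0 < V₀)
    (hV₁ : 0 < V₁) (hV : 0 < V) (hP₀ : 0 < P₀) (hP₁ : 0 < P₁) (hP : 0 < P)
    (h1 : (1 - ρ) * V₀ + ρ * V₁ ≤ V) (h2 : P⁻¹ ≤ (1 - ρ) * P₀⁻¹ + ρ * P₁⁻¹) :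
    ∃ w : ℝ, 0 < w ∧ w < 1 ∧ (V * P)⁻¹ ≤ (1 - w) * (V₀ * P₀)⁻¹ + w * (V₁ * P₁)⁻¹ := by
  have hr : 0 < 1 - ρ := by linarith
  have hD : 0 < (1 - ρ) * V₀ + ρ * V₁ := by positivity
  set D : ℝ := (1 - ρ) * V₀ + ρ * V₁ with hDdef
  have h0 : 0 < (1 - ρ) * V₀ := by positivity
  refine ⟨ρ * V₁ / D, by positivity, ?_, ?_⟩
  · rw [div_lt_one hD]
    linarith
  · have e1 : 1 - ρ * V₁ / D = (1 - ρ) * V₀ / D := by
      rw [eq_div_iff hD.ne', sub_mul, div_mul_cancel₀ _ hD.ne', hDdef]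
      ring
    have e2 : (1 - ρ) * V₀ / D * (V₀ * P₀)⁻¹ + ρ * V₁ / D * (V₁ * P₁)⁻¹ =
        D⁻¹ * ((1 - ρ) * P₀⁻¹ + ρ * P₁⁻¹) := by
      field_simp
    rw [e1, e2, mul_inv]
    exact mul_le_mul (inv_anti₀ hD h1) h2 (inv_nonneg.2 hP.le) (inv_nonneg.2 hD.le)

theorem gSHADV : BUS0 → VOLC0 → SHADV := by
  intro hB hC ι _ v K₀ K₁ L ρ hv hρ0 hρ1 hK₀ hK₁ hL hF hCo
  have hne : Nonempty ι := by
    by_contra h
    rw [not_nonempty_iff] at h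
    exact hv (funext fun i => (h.false i).elim)
  obtain ⟨m, hm⟩ : ∃ m, Fintype.card ι = m + 1 :=
    ⟨Fintype.card ι - 1, by have := Fintype.card_pos (α := ι); omega⟩
  have e : ι ≃ Fin (m + 1) := Fintype.equivFinOfCardEq hm
  set R : (ι → ℝ) ≃ₗ[ℝ] (Fin (m + 1) → ℝ) := LinearEquiv.funCongrLeft ℝ ℝ e.symm with hR
  have hRv : R v ≠ 0 := by
    intro h
    exact hv (R.map_eq_zero_iff.1 h)
  have hs : (Pi.single 0 1 : Fin (m + 1) → ℝ) ≠ 0 := by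
    intro h
    have := congrFun h 0
    simp at this
  obtain ⟨S, hS⟩ := SeparatingDual.exists_continuousLinearEquiv_apply_eq (R := ℝ) hRv hs
  set A : (ι → ℝ) ≃ₗ[ℝ] (Fin (m + 1) → ℝ) := R.trans S.toLinearEquiv with hA
  have hAv : A v = Pi.single 0 1 := hS
  have hb : ∀ K : Set (ι → ℝ), IsBody K → IsBody (A '' K) := fun K h => h.affine A.toAffineEquiv
  have hFA : ∀ K : Set (ι → ℝ), F (A '' K) = F K := fun K => F_affine A.toAffineEquiv K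
  have hline : ∀ x y : ι → ℝ, (∃ a : ℝ, x - y = a • v) ↔
      ∃ a : ℝ, A x - A y = a • (Pi.single 0 1 : Fin (m + 1) → ℝ) := by
    intro x y
    constructor
    · rintro ⟨a, ha⟩
      refine ⟨a, ?_⟩
      rw [← map_sub, ha, map_smul, hAv]
    · rintro ⟨a, ha⟩
      refine ⟨a, A.injective ?_⟩
      rw [map_sub, ha, map_smul, hAv]
  have hcomb : ∀ x y : ι → ℝ, A ((1 - ρ) • x + ρ • y) = (1 - ρ) • A x + ρ • A y := by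
    intro x y
    rw [map_add, map_smul, map_smul]
  have hF' : FibV (Pi.single 0 1) (A '' K₀) (A '' K₁) (A '' L) ρ := by
    rintro _ ⟨z, hz, rfl⟩
    obtain ⟨x, hx, y, hy, ha, e1⟩ := hF z hz
    exact ⟨A x, ⟨x, hx, rfl⟩, A y, ⟨y, hy, rfl⟩, (hline x y).1 ha, by rw [e1, hcomb]⟩
  have hC' : CoFib (Pi.single 0 1) (A '' K₀) (A '' K₁) (A '' L) ρ := by
    obtain ⟨c1, c2, c3⟩ := hCo
    refine ⟨?_, ?_, ?_⟩
    · rintro _ ⟨x, hx, rfl⟩ _ ⟨y, hy, rfl⟩ ha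
      exact ⟨_, c1 x hx y hy ((hline x y).2 ha), hcomb x y⟩
    · rintro _ ⟨x, hx, rfl⟩
      obtain ⟨y, hy, ha⟩ := c2 x hx
      exact ⟨A y, ⟨y, hy, rfl⟩, (hline x y).1 ha⟩
    · rintro _ ⟨y, hy, rfl⟩
      obtain ⟨x, hx, ha⟩ := c3 y hy
      exact ⟨A x, ⟨x, hx, rfl⟩, (hline x y).1 ha⟩
  have h1 := hC m _ _ _ ρ hρ0 hρ1 (hb _ hK₀) (hb _ hK₁) (hb _ hL) hC'
  have h2 := hB m _ _ _ ρ hρ0 hρ1 (hb _ hK₀) (hb _ hK₁) (hb _ hL) hF'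
  obtain ⟨w, hw0, hw1, hw⟩ := real_part hρ0 hρ1 (hb _ hK₀).vol_pos (hb _ hK₁).vol_pos
    (hb _ hL).vol_pos (hb _ hK₀).dpol_pos (hb _ hK₁).dpol_pos (hb _ hL).dpol_pos h1 h2
  refine ⟨w, hw0, hw1, ?_⟩
  rw [← hFA L, ← hFA K₀, ← hFA K₁]
  exact hw

end Pool.Agent.Helper78.PN
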