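import Pool.Agent.Helper82.PN.GoalsR

/-!
# Project PN, packet TCPOL: the polar difference body of the truncated cone
-/

open MeasureTheory Set Filter Topology
open scoped ENNReal
open Pool.Agent.Helper47.AQ Pool.Agent.Helper82.PN

noncomputable section

namespace Pool.Agent.Helper78.PN

/-! ### One-dimensional integrals -/

theorem lint_t_exp (a : ℝ) (ha : 0 ≤ a) :
    ∫⁻ t in Ici a, ENNReal.ofReal (Real.exp (-t) * t) = ENNReal.ofReal ((a + 1) * Real.exp (-a)) := by
  rw [← restrict_Ioi_eq_restrict_Ici]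
  have hd : ∀ x ∈ Ici a, HasDerivAt (fun t : ℝ => -((t + 1) * Real.exp (-t)))
      (Real.exp (-x) * x) x := by
    intro x _
    have h1 : HasDerivAt (fun t : ℝ => t + 1) 1 x := (hasDerivAt_id x).add_const 1
    have h2 : HasDerivAt (fun t : ℝ => Real.exp (-t)) (Real.exp (-x) * -1) x :=
      (Real.hasDerivAt_exp (-x)).comp x (hasDerivAt_neg x)
    have h3 := (h1.mul h2).neg
    refine h3.congr_deriv ?_
    ring
  have hpos : ∀ x ∈ Ioi a, 0 ≤ Real.exp (-x) * x := fun x hx =>
    mul_nonneg (Real.exp_pos _).le (ha.trans (le_of_lt hx))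
  have hlim : Tendsto (fun t : ℝ => -((t + 1) * Real.exp (-t))) atTop (𝓝 0) := by
    have h1 : Tendsto (fun t : ℝ => t ^ 1 * Real.exp (-t)) atTop (𝓝 0) :=
      Real.tendsto_pow_mul_exp_neg_atTop_nhds_zero 1
    have h2 : Tendsto (fun t : ℝ => t ^ 0 * Real.exp (-t)) atTop (𝓝 0) :=
      Real.tendsto_pow_mul_exp_neg_atTop_nhds_zero 0
    have h3 := (h1.add h2).neg
    simp only [add_zero, neg_zero, pow_one, pow_zero, one_mul] at h3
    refine h3.congr fun t => ?_
    ring
  have hi := integrableOn_Ioi_deriv_of_nonneg' hd hpos hlim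
  have he := integral_Ioi_of_hasDerivAt_of_nonneg' hd hpos hlim
  rw [← ofReal_integral_eq_lintegral_ofReal hi, he]
  · congr 1
    ring
  · rw [EventuallyLE, ae_restrict_iff' measurableSet_Ioi]
    exact Eventually.of_forall hpos

theorem lint_exp_Iic (c : ℝ) : ∫⁻ t in Iic c, ENNReal.ofReal (Real.exp t) =
    ENNReal.ofReal (Real.exp c) := by
  rw [← ofReal_integral_eq_lintegral_ofReal (integrableOn_exp_Iic c)
    (Eventually.of_forall fun t => (Real.exp_pos _).le), integral_exp_Iic]

theorem inner (w A A' : ℝ) (hA : 0 ≤ A) (hA' : 0 ≤ A') :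
    ∫⁻ r : ℝ, ENNReal.ofReal (Real.exp (-(w + max 0 (r - A) + max 0 (-r - A')))) =
      ENNReal.ofReal (Real.exp (-w) * (A + A' + 2)) := by
  have e1 : ∫⁻ r in Iic (-A'), ENNReal.ofReal (Real.exp (-(w + max 0 (r - A) + max 0 (-r - A')))) =
      ENNReal.ofReal (Real.exp (-w)) := by
    have h1 : ∀ r ∈ Iic (-A'), ENNReal.ofReal (Real.exp (-(w + max 0 (r - A) + max 0 (-r - A')))) =
        ENNReal.ofReal (Real.exp (-w + A')) * ENNReal.ofReal (Real.exp r) := by
      intro r hr
      have hr' : r ≤ -A' := hr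
      rw [max_eq_left (by linarith : r - A ≤ 0), max_eq_right (by linarith : 0 ≤ -r - A'),
        ← ENNReal.ofReal_mul (Real.exp_pos _).le, ← Real.exp_add]
      congr 2
      ring
    rw [setLIntegral_congr_fun measurableSet_Iic h1, lintegral_const_mul' _ _ ENNReal.ofReal_ne_top,
      lint_exp_Iic, ← ENNReal.ofReal_mul (Real.exp_pos _).le, ← Real.exp_add]
    congr 2
    ring
  have e2 : ∫⁻ r in Ioc (-A') A, ENNReal.ofReal (Real.exp (-(w + max 0 (r - A) + max 0 (-r - A')))) =
      ENNReal.ofReal (Real.exp (-w) * (A + A')) := by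
    have h1 : ∀ r ∈ Ioc (-A') A, ENNReal.ofReal (Real.exp (-(w + max 0 (r - A) + max 0 (-r - A')))) =
        ENNReal.ofReal (Real.exp (-w)) := by
      intro r hr
      rw [max_eq_left (by linarith [hr.2] : r - A ≤ 0), max_eq_left (by linarith [hr.1] : -r - A' ≤ 0)]
      congr 2
      ring
    rw [setLIntegral_congr_fun measurableSet_Ioc h1, setLIntegral_const, Real.volume_Ioc,
      ← ENNReal.ofReal_mul (Real.exp_pos _).le, sub_neg_eq_add]
  have e3 : ∫⁻ r in Ioi A, ENNReal.ofReal (Real.exp (-(w + max 0 (r - A) + max 0 (-r - A')))) =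
      ENNReal.ofReal (Real.exp (-w)) := by
    have h1 : ∀ r ∈ Ioi A, ENNReal.ofReal (Real.exp (-(w + max 0 (r - A) + max 0 (-r - A')))) =
        ENNReal.ofReal (Real.exp (-w + A)) * ENNReal.ofReal (Real.exp (-r)) := by
      intro r hr
      have hr' : A < r := hr
      rw [max_eq_right (by linarith : 0 ≤ r - A), max_eq_left (by linarith : -r - A' ≤ 0),
        ← ENNReal.ofReal_mul (Real.exp_pos _).le, ← Real.exp_add]
      congr 2
      ring
    rw [setLIntegral_congr_fun measurableSet_Ioi h1, lintegral_const_mul' _ _ ENNReal.ofReal_ne_top,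
      restrict_Ioi_eq_restrict_Ici, lint_exp, ← ENNReal.ofReal_mul (Real.exp_pos _).le,
      ← Real.exp_add]
    congr 2
    ring
  rw [← lintegral_add_compl _ (measurableSet_Iic (a := -A')), compl_Iic, e1,
    ← Ioc_union_Ioi_eq_Ioi (show -A' ≤ A by linarith),
    lintegral_union measurableSet_Ioi (Set.Ioc_disjoint_Ioi le_rfl), e2, e3,
    ← ENNReal.ofReal_add (mul_nonneg (Real.exp_pos _).le (by linarith)) (Real.exp_pos _).le,
    ← ENNReal.ofReal_add (Real.exp_pos _).le
      (add_nonneg (mul_nonneg (Real.exp_pos _).le (by linarith)) (Real.exp_pos _).le)]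
  congr 1
  ring

/-! ### The second Laplace formula -/

variable {ι : Type} [Fintype ι]

theorem laplace2 (h : (ι → ℝ) → ℝ) (hm : Measurable h)
    (hh : ∀ t : ℝ, 0 < t → ∀ x, h (t • x) = t * h x) (h0 : ∀ x, 0 ≤ h x) :
    ∫⁻ x, ENNReal.ofReal ((h x + 1) * Real.exp (-(h x))) =
      ((Fintype.card ι + 1).factorial : ℝ≥0∞) * volume {x | h x ≤ 1} := by
  have hvol : ∀ t : ℝ, 0 < t → volume {x | h x ≤ t} =
      ENNReal.ofReal (t ^ Fintype.card ι) * volume {x | h x ≤ 1} := by
    intro t ht
    have := vol_scale univ (fun t _ x => by simp) h hh t ht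
    simpa only [univ_inter] using this
  have h1 : ∀ x, ENNReal.ofReal ((h x + 1) * Real.exp (-(h x))) =
      ∫⁻ t in Ioi (0 : ℝ), (Ici (h x)).indicator (fun t => ENNReal.ofReal (Real.exp (-t) * t)) t := by
    intro x
    rw [restrict_Ioi_eq_restrict_Ici, setLIntegral_indicator measurableSet_Ici,
      inter_eq_self_of_subset_left (Ici_subset_Ici.2 (h0 x)), lint_t_exp _ (h0 x)]
  simp_rw [h1]
  rw [lintegral_lintegral_swap]
  · have h2 : ∀ t ∈ Ioi (0 : ℝ), ∫⁻ x, (Ici (h x)).indicator
        (fun t => ENNReal.ofReal (Real.exp (-t) * t)) t =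
        ENNReal.ofReal (Real.exp (-t) * t ^ (Fintype.card ι + 1)) * volume {x | h x ≤ 1} := by
      intro t ht
      have ht' : 0 < t := ht
      have h3 : ∀ x, (Ici (h x)).indicator (fun t => ENNReal.ofReal (Real.exp (-t) * t)) t =
          {x | h x ≤ t}.indicator (fun _ => ENNReal.ofReal (Real.exp (-t) * t)) x := by
        intro x
        by_cases hx : h x ≤ t
        · rw [indicator_of_mem (s := Ici (h x)) hx, indicator_of_mem (s := {x | h x ≤ t}) hx]
        · rw [indicator_of_notMem (s := Ici (h x)) hx,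
            indicator_of_notMem (s := {x | h x ≤ t}) hx]
      simp_rw [h3]
      have hms : MeasurableSet {x | h x ≤ t} := measurableSet_le hm measurable_const
      rw [lintegral_indicator hms, setLIntegral_const, hvol t ht, ← mul_assoc,
        ← ENNReal.ofReal_mul (mul_nonneg (Real.exp_pos _).le ht'.le)]
      congr 2
      ring
    rw [setLIntegral_congr_fun measurableSet_Ioi h2, lintegral_mul_const, lint_gamma]
    fun_prop
  · have hms : MeasurableSet {z : (ι → ℝ) × ℝ | h z.1 ≤ z.2} :=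
      measurableSet_le (hm.comp measurable_fst) measurable_snd
    have h4 : (Function.uncurry fun (x : ι → ℝ) (t : ℝ) =>
        (Ici (h x)).indicator (fun t => ENNReal.ofReal (Real.exp (-t) * t)) t) =
        {z : (ι → ℝ) × ℝ | h z.1 ≤ z.2}.indicator
          (fun z => ENNReal.ofReal (Real.exp (-z.2) * z.2)) := by
      funext z
      simp only [Function.uncurry]
      by_cases hz : h z.1 ≤ z.2
      · rw [indicator_of_mem (s := Ici (h z.1)) hz,
          indicator_of_mem (s := {z : (ι → ℝ) × ℝ | h z.1 ≤ z.2}) hz]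
      · rw [indicator_of_notMem (s := Ici (h z.1)) hz,
          indicator_of_notMem (s := {z : (ι → ℝ) × ℝ | h z.1 ≤ z.2}) hz]
    rw [h4]
    refine (Measurable.indicator ?_ hms).aemeasurable
    fun_prop

/-! ### The support function of the truncated cone -/

theorem sum_tc (q : ι → ℝ) (r : ℝ) (z : ι ⊕ Unit → ℝ) :
    ∑ j, (Sum.elim q (fun _ => r) : ι ⊕ Unit → ℝ) j * z j =
      ∑ i, q i * z (Sum.inl i) + r * z (Sum.inr ()) := by
  rw [Fintype.sum_sum_type]
  simp

theorem hs_tc {B : Set (ι → ℝ)} {a : ℝ} (hB : IsBody B) (ha : 0 ≤ a) (ha1 : a ≤ 1)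
    (hT : IsBody (tc B a)) (q : ι → ℝ) (r : ℝ) :
    hs (tc B a) (Sum.elim q (fun _ => r)) = max (hs B q) (a * hs B q + r) := by
  refine le_antisymm ?_ ?_
  · refine hT.hs_le _ _ ?_
    rintro z ⟨⟨hx0, hx1⟩, b, hb, hz⟩
    rw [sum_tc]
    set x := z (Sum.inr ()) with hx
    have h1 : ∑ i, q i * z (Sum.inl i) = (1 - (1 - a) * x) * ∑ i, q i * b i := by
      rw [Finset.mul_sum]
      refine Finset.sum_congr rfl fun i _ => ?_
      rw [hz i]
      ring
    have h2 : 0 ≤ 1 - (1 - a) * x := by nlinarith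
    have h3 : ∑ i, q i * b i ≤ hs B q := hB.le_hs q hb
    have h4 := mul_le_mul_of_nonneg_left h3 h2
    have h5 := le_max_left (hs B q) (a * hs B q + r)
    have h6 := le_max_right (hs B q) (a * hs B q + r)
    have h7 : (1 - (1 - a) * x) * hs B q + r * x = (1 - x) * hs B q + x * (a * hs B q + r) := by ring
    have h8 : (1 - x) * hs B q ≤ (1 - x) * max (hs B q) (a * hs B q + r) :=
      mul_le_mul_of_nonneg_left h5 (by linarith)
    have h9 : x * (a * hs B q + r) ≤ x * max (hs B q) (a * hs B q + r) :=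
      mul_le_mul_of_nonneg_left h6 hx0
    rw [h1]
    nlinarith
  · have key : ∀ b ∈ B, ∀ x ∈ Icc (0 : ℝ) 1,
        (1 - (1 - a) * x) * (∑ i, q i * b i) + r * x ≤ hs (tc B a) (Sum.elim q (fun _ => r)) := by
      intro b hb x hx
      have hz : (Sum.elim (fun i => (1 - (1 - a) * x) * b i) (fun _ => x) : ι ⊕ Unit → ℝ) ∈ tc B a :=
        ⟨hx, b, hb, fun i => rfl⟩
      have := hT.le_hs (Sum.elim q (fun _ => r)) hz
      rw [sum_tc] at this
      refine le_trans (le_of_eq ?_) this
      rw [Finset.mul_sum]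
      congr 1
      refine Finset.sum_congr rfl fun i _ => ?_
      simp only [Sum.elim_inl]
      ring
    refine max_le ?_ ?_
    · refine hB.hs_le _ _ fun b hb => ?_
      have := key b hb 0 ⟨le_rfl, zero_le_one⟩
      simpa using this
    · rcases ha.eq_or_lt with h | h
      · obtain ⟨b, hb⟩ := hB.nonempty
        have := key b hb 1 ⟨zero_le_one, le_rfl⟩
        rw [← h] at this ⊢
        simpa using this
      · have h1 : hs B q ≤ (hs (tc B a) (Sum.elim q (fun _ => r)) - r) / a := by
          refine hB.hs_le _ _ fun b hb => ?_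
          have := key b hb 1 ⟨zero_le_one, le_rfl⟩
          rw [le_div_iff₀ h]
          linarith
        rw [le_div_iff₀ h] at h1
        linarith

theorem neg_elim (q : ι → ℝ) (r : ℝ) : -(Sum.elim q (fun _ => r) : ι ⊕ Unit → ℝ) =
    Sum.elim (-q) (fun _ => -r) := by
  funext j
  cases j <;> rfl

theorem wd_tc {B : Set (ι → ℝ)} {a : ℝ} (hB : IsBody B) (ha : 0 ≤ a) (ha1 : a ≤ 1)
    (hT : IsBody (tc B a)) (q : ι → ℝ) (r : ℝ) :
    wd (tc B a) (Sum.elim q (fun _ => r)) =
      wd B q + max 0 (r - (1 - a) * hs B q) + max 0 (-r - (1 - a) * hs B (-q)) := by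
  have hmax : ∀ u v : ℝ, max u v = u + max 0 (v - u) := by
    intro u v
    rw [← max_add_add_left]
    simp
  unfold wd
  rw [neg_elim, hs_tc hB ha ha1 hT, hs_tc hB ha ha1 hT, hmax (hs B q), hmax (hs B (-q))]
  have e1 : a * hs B q + r - hs B q = r - (1 - a) * hs B q := by ring
  have e2 : a * hs B (-q) + -r - hs B (-q) = -r - (1 - a) * hs B (-q) := by ring
  rw [e1, e2]
  ring

/-! ### Tonelli -/

theorem ton (f : (ι ⊕ Unit → ℝ) → ℝ≥0∞) (hf : Measurable f) :
    ∫⁻ p, f p = ∫⁻ q : ι → ℝ, ∫⁻ r : ℝ, f (Sum.elim q (fun _ => r)) := by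
  have h1 := (volume_measurePreserving_sumPiEquivProdPi_symm (fun _ : ι ⊕ Unit => ℝ)).lintegral_comp hf
  rw [← h1, Measure.volume_eq_prod, lintegral_prod]
  · refine lintegral_congr fun q => ?_
    have hm : Measurable (fun u : Unit → ℝ =>
        f ((MeasurableEquiv.sumPiEquivProdPi (fun _ : ι ⊕ Unit => ℝ)).symm (q, u))) :=
      hf.comp ((MeasurableEquiv.measurable _).comp (measurable_const.prodMk measurable_id))
    have h2 := (volume_preserving_funUnique Unit ℝ).symm.lintegral_comp hm
    rw [← h2]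
    refine lintegral_congr fun r => ?_
    congr 1
  · exact (hf.comp (MeasurableEquiv.measurable _)).aemeasurable

theorem gTCPOL : TCPOL := by
  intro ι _ B a hB h0 ha ha1 hT
  set n := Fintype.card ι with hn
  set w : (ι → ℝ) → ℝ := wd B with hw
  set V := volume (dpol B) with hV
  have hwc : Measurable w := hB.wd_continuous.measurable
  have hw0 : ∀ q, 0 ≤ w q := hB.wd_nonneg
  have hs0 : ∀ q, 0 ≤ hs B q := by
    intro q
    have := hB.le_hs q h0
    simpa using this
  have L1 : ∫⁻ q, ENNReal.ofReal (Real.exp (-(w q))) = (n.factorial : ℝ≥0∞) * V := hB.laplace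
  have L2 : ∫⁻ q, ENNReal.ofReal ((w q + 1) * Real.exp (-(w q))) =
      ((n + 1).factorial : ℝ≥0∞) * V := by
    have := laplace2 w hwc (fun t ht x => hB.wd_smul t ht x) hw0
    rw [this, hV, hB.dpol_eq]
  have L3 : ∫⁻ p, ENNReal.ofReal (Real.exp (-(wd (tc B a) p))) =
      ((n + 1).factorial : ℝ≥0∞) * volume (dpol (tc B a)) := by
    have := hT.laplace
    rw [this]
    have hc : Fintype.card (ι ⊕ Unit) = n + 1 := by simp [hn]
    rw [hc]
  have L4 : ∫⁻ p, ENNReal.ofReal (Real.exp (-(wd (tc B a) p))) =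
      ENNReal.ofReal (1 - a) * (((n + 1).factorial : ℝ≥0∞) * V) +
        ENNReal.ofReal (1 + a) * ((n.factorial : ℝ≥0∞) * V) := by
    rw [ton _ (by
      have := hT.wd_continuous.measurable
      fun_prop)]
    have h1 : ∀ q : ι → ℝ, ∫⁻ r : ℝ, ENNReal.ofReal
        (Real.exp (-(wd (tc B a) (Sum.elim q (fun _ => r))))) =
        ENNReal.ofReal (1 - a) * ENNReal.ofReal ((w q + 1) * Real.exp (-(w q))) +
          ENNReal.ofReal (1 + a) * ENNReal.ofReal (Real.exp (-(w q))) := by
      intro q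
      simp only [wd_tc hB ha ha1 hT]
      rw [inner (wd B q) _ _ (mul_nonneg (by linarith) (hs0 q)) (mul_nonneg (by linarith) (hs0 _)),
        ← ENNReal.ofReal_mul (by linarith), ← ENNReal.ofReal_mul (by linarith),
        ← ENNReal.ofReal_add
          (mul_nonneg (by linarith) (mul_nonneg (by linarith [hw0 q]) (Real.exp_pos _).le))
          (mul_nonneg (by linarith) (Real.exp_pos _).le)]
      congr 1
      have e : w q = hs B q + hs B (-q) := rfl
      have e' : wd B q = w q := rfl
      rw [e']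
      have e2 : (1 - a) * hs B q + (1 - a) * hs B (-q) = (1 - a) * w q := by rw [e]; ring
      rw [e2]
      ring
    simp_rw [h1]
    rw [lintegral_add_left (by fun_prop), lintegral_const_mul _ (by fun_prop),
      lintegral_const_mul _ (by fun_prop), L1, L2]
  have hVt : V ≠ ⊤ := hB.dpol_ne_top
  have hE := L3.symm.trans L4
  have hR := congrArg ENNReal.toReal hE
  rw [ENNReal.toReal_mul, ENNReal.toReal_add
    (ENNReal.mul_ne_top ENNReal.ofReal_ne_top (ENNReal.mul_ne_top (ENNReal.natCast_ne_top _) hVt))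
    (ENNReal.mul_ne_top ENNReal.ofReal_ne_top (ENNReal.mul_ne_top (ENNReal.natCast_ne_top _) hVt)),
    ENNReal.toReal_mul, ENNReal.toReal_mul, ENNReal.toReal_mul, ENNReal.toReal_mul,
    ENNReal.toReal_ofReal (by linarith), ENNReal.toReal_ofReal (by linarith),
    ENNReal.toReal_natCast, ENNReal.toReal_natCast, Nat.factorial_succ] at hR
  push_cast at hR
  have hf : (n.factorial : ℝ) ≠ 0 := by positivity
  have hn1 : (n : ℝ) + 1 ≠ 0 := by positivity
  rw [eq_div_iff hn1]
  apply mul_left_cancel₀ hf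
  linear_combination hR

end Pool.Agent.Helper78.PN
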